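import Mathlib
import Pool.Agent.BC.Defs
import Pool.Agent.BC.Stmts
import Pool.Agent.Helper51_BC.Main

/-!
# Bourgain's question on subspaces with a basis failing the RNP: B-convex spaces
-/

set_option autoImplicit false

open Finset MeasureTheory Filter Topology

namespace Pool.Agent.Results.MP_d20576_an.BConvex

open Pool.Agent.BC

/-- **Subspaces with a Schauder basis failing the RNP in B-convex spaces.**
Let `X` be a real Banach space and let `f : ℝ → X` be a Lipschitz function which is not
differentiable almost everywhere (so `X` fails the RNP). Suppose that `X` is B-convex (it does not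
contain the spaces `ℓ₁ⁿ` uniformly), or only that for some `M` and `γ < 1` the average over the
signs of `‖2^(-r) ∑ ± z i‖` is at most `M * γ ^ r` for all `2 ^ r` dyadic difference quotients
`z i` of `f` of one length. Then for every `η > 0` there are a closed subspace `Y` of `X`, a
Schauder basis `e` of `Y` with basis constant at most `1 + η`, and a Lipschitz function
`g : ℝ → Y` which is not differentiable at any `t > 0` (so `Y` fails the RNP); moreover the two
dyadic difference quotients of `g` on the halves of any dyadic interval of `[0, ∞)` of length at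
most one are at the distance at least `δ > 0` (so `Y` contains a bounded `δ`-tree). -/
theorem result (X : Type) [NormedAddCommGroup X] [NormedSpace ℝ X] [CompleteSpace X]
    (f : ℝ → X) (K : NNReal) (hf : LipschitzWith K f)
    (hn : ¬ ∀ᵐ t : ℝ, DifferentiableAt ℝ f t)
    (hX : BConvex X ∨ ∃ M γ : ℝ, 0 < γ ∧ γ < 1 ∧ RC (dq f) M γ)
    (η : ℝ) (hη : 0 < η) :
    ∃ (Y : Submodule ℝ X) (e : ℕ → X), IsClosed (Y : Set X) ∧ (∀ i, e i ∈ Y) ∧
      (∀ y ∈ Y, ∃! a : ℕ → ℝ, Tendsto (fun n => ∑ i ∈ range n, a i • e i) atTop (𝓝 y)) ∧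
      (∀ (a : ℕ → ℝ) (m n : ℕ), m ≤ n →
        ‖∑ i ∈ range m, a i • e i‖ ≤ (1 + η) * ‖∑ i ∈ range n, a i • e i‖) ∧
      ∃ (g : ℝ → X) (δ : ℝ), (∀ t, g t ∈ Y) ∧ LipschitzWith 1 g ∧
        (∀ t : ℝ, 0 < t → ¬ DifferentiableAt ℝ g t) ∧ 0 < δ ∧
        ∀ n j : ℕ, δ ≤ ‖dq g (n + 1) (2 * j) - dq g (n + 1) (2 * j + 1)‖ :=
  H51.main3 X f K hf hn hX η hη

end Pool.Agent.Results.MP_d20576_an.BConvex
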